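import Mathlib

open scoped InnerProductSpace
open Filter Topology

namespace Pool.Agent.H.MP_24ca2e_an

abbrev G := FreeGroup (Fin 3)
abbrev O := Option (Fin 3)
abbrev V := O × G
noncomputable abbrev K := lp (fun _ : V => ℂ) 2
noncomputable abbrev A := K →L[ℂ] K

lemma mem2 {f : V → ℂ} : Memℓp f 2 ↔ Summable (fun p => ‖f p‖ ^ 2) := by
  rw [memℓp_gen_iff (by norm_num)]; norm_num

lemma norm_sq (u : K) : HasSum (fun p => ‖u p‖ ^ 2) (‖u‖ ^ 2) := by
  have := lp.hasSum_norm (p := 2) (by norm_num) u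
  simpa using this

/-- weighted composition with a bijection; weights of modulus at most one -/
noncomputable def W (w : V → ℂ) (hw : ∀ p, ‖w p‖ ≤ 1) (σ : V ≃ V) : A :=
  LinearMap.mkContinuous
    { toFun := fun u => ⟨fun p => w p * u (σ p), mem2.2 (by
        have h1 : Summable (fun p => ‖u (σ p)‖ ^ 2) := (σ.summable_iff (f := fun p => ‖u p‖ ^ 2)).2 (norm_sq u).summable
        refine h1.of_nonneg_of_le (fun p => by positivity) (fun p => ?_)
        rw [norm_mul]
        gcongr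
        exact mul_le_of_le_one_left (norm_nonneg _) (hw p))⟩
      map_add' := fun u v => by ext p; simp [mul_add]
      map_smul' := fun c u => by ext p; simp [mul_left_comm] } 1 (fun u => by
        rw [one_mul]
        refine le_of_sq_le_sq ?_ (norm_nonneg _)
        have h1 : HasSum (fun p => ‖u (σ p)‖ ^ 2) (‖u‖ ^ 2) := (σ.hasSum_iff (f := fun p => ‖u p‖ ^ 2)).2 (norm_sq u)
        refine hasSum_le (fun p => ?_) (norm_sq _) h1
        show ‖w p * u (σ p)‖ ^ 2 ≤ _
        rw [norm_mul]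
        gcongr
        exact mul_le_of_le_one_left (norm_nonneg _) (hw p))

lemma W_apply (w hw σ) (u : K) (p : V) : W w hw σ u p = w p * u (σ p) := rfl

noncomputable def U (σ : V ≃ V) : A := W (fun _ => 1) (by simp) σ
lemma U_apply (σ) (u : K) (p : V) : U σ u p = u (σ p) := by simp [U, W_apply]

noncomputable def E (x : O) : A := W (fun p => if p.1 = x then 1 else 0) (fun p => by split_ifs <;> simp) (Equiv.refl _)
@[simp] lemma E_apply (x) (u : K) (p : V) : E x u p = if p.1 = x then u p else 0 := by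
  simp [E, W_apply]

noncomputable def R (g : G) : A := U ((Equiv.refl O).prodCongr (Equiv.mulRight g))
@[simp] lemma R_apply (g) (u : K) (x : O) (h : G) : R g u (x, h) = u (x, h * g) := by simp [R, U_apply]
noncomputable def L (g : G) : A := U ((Equiv.refl O).prodCongr (Equiv.mulLeft g))
@[simp] lemma L_apply (g) (u : K) (x : O) (h : G) : L g u (x, h) = u (x, g * h) := by simp [L, U_apply]
noncomputable def Sw (i : Fin 3) : A := U ((Equiv.swap none (some i)).prodCongr (Equiv.refl G))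
@[simp] lemma Sw_apply (i) (u : K) (x : O) (h : G) : Sw i u (x, h) = u (Equiv.swap none (some i) x, h) := by
  simp [Sw, U_apply]

lemma star_U (σ : V ≃ V) : star (U σ) = U σ.symm := by
  rw [ContinuousLinearMap.star_eq_adjoint]
  symm
  rw [ContinuousLinearMap.eq_adjoint_iff]
  intro u v
  rw [lp.inner_eq_tsum, lp.inner_eq_tsum, ← σ.tsum_eq]
  simp [U_apply]

lemma star_E (x : O) : star (E x) = E x := by
  rw [ContinuousLinearMap.star_eq_adjoint]
  symm
  rw [ContinuousLinearMap.eq_adjoint_iff]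
  intro u v
  rw [lp.inner_eq_tsum, lp.inner_eq_tsum]
  congr 1; ext p
  simp only [E_apply]; split_ifs <;> simp

lemma star_R (g : G) : star (R g) = R g⁻¹ := by
  rw [R, star_U]; rfl
lemma star_L (g : G) : star (L g) = L g⁻¹ := by
  rw [L, star_U]; rfl
lemma star_Sw (i) : star (Sw i) = Sw i := by
  rw [Sw, star_U]; rfl

lemma R_mul (g h : G) : R g * R h = R (g * h) := by
  ext u ⟨x, k⟩; simp [mul_assoc]
lemma R_one : R 1 = 1 := by ext u ⟨x, k⟩; simp
lemma E_mul (x : O) : E x * E x = E x := by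
  ext u ⟨y, k⟩; simp only [ContinuousLinearMap.mul_apply, E_apply]; split_ifs <;> rfl

noncomputable def δ (p : V) : K := lp.single 2 p 1
lemma δ_apply (p q : V) : δ p q = if q = p then 1 else 0 := by
  simp [δ, lp.single_apply, Pi.single_apply]
lemma inner_δ (p : V) (u : K) : ⟪δ p, u⟫_ℂ = u p := by
  simp [δ, lp.inner_single_left]
lemma norm_δ (p : V) : ‖δ p‖ = 1 := by
  rw [δ, lp.norm_single (by norm_num)]; simp

/-- operators commuting with the deck group -/
def N (X : A) : Prop := ∀ g, L g * X = X * L g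

lemma N.mul {X Y : A} (hX : N X) (hY : N Y) : N (X * Y) := fun g => by
  rw [← mul_assoc, hX g, mul_assoc, hY g, mul_assoc]
lemma N.add {X Y : A} (hX : N X) (hY : N Y) : N (X + Y) := fun g => by
  rw [mul_add, add_mul, hX g, hY g]
lemma N.sub {X Y : A} (hX : N X) (hY : N Y) : N (X - Y) := fun g => by
  rw [mul_sub, sub_mul, hX g, hY g]
lemma N.one : N 1 := fun g => by simp
lemma N.pow {X : A} (hX : N X) (n : ℕ) : N (X ^ n) := by
  induction n with
  | zero => simpa using N.one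
  | succ n ih => rw [pow_succ]; exact ih.mul hX
lemma N.star {X : A} (hX : N X) : N (star X) := fun g => by
  have := congrArg Star.star (hX g⁻¹)
  simp only [star_mul, star_L, inv_inv] at this
  exact this.symm
lemma N.E (x : O) : N (E x) := fun g => by
  ext u ⟨y, k⟩; simp
lemma N.inv {X D : A} (hX : N X) (h1 : X * D = 1) (h2 : D * X = 1) : N D := fun g => by
  calc L g * D = D * X * (L g * D) := by rw [h2, one_mul]
    _ = D * (X * L g) * D := by simp only [mul_assoc]
    _ = D * (L g * X) * D := by rw [hX g]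
    _ = D * L g * (X * D) := by simp only [mul_assoc]
    _ = D * L g := by rw [h1, mul_one]

noncomputable def τ (X : A) : ℂ := ∑ x : O, X (δ (x, 1)) (x, 1)

lemma τ_add (X Y : A) : τ (X + Y) = τ X + τ Y := by simp [τ, Finset.sum_add_distrib]
lemma τ_sub (X Y : A) : τ (X - Y) = τ X - τ Y := by simp [τ, Finset.sum_sub_distrib]
lemma τ_smul (c : ℂ) (X : A) : τ (c • X) = c * τ X := by simp [τ, mul_add, Finset.mul_sum]
lemma τ_zero : τ 0 = 0 := by simp [τ]
lemma τ_one : τ 1 = 4 := by simp [τ, δ_apply]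
lemma τ_E (x : O) : τ (E x) = 1 := by simp [τ, δ_apply]
lemma τ_sum {ι} (s : Finset ι) (X : ι → A) : τ (∑ i ∈ s, X i) = ∑ i ∈ s, τ (X i) := by
  classical
  induction s using Finset.induction_on with
  | empty => simp [τ_zero]
  | insert a s h ih => rw [Finset.sum_insert h, Finset.sum_insert h, τ_add, ih]
lemma τ_norm (X : A) : ‖τ X‖ ≤ 4 * ‖X‖ := by
  unfold τ
  calc _ ≤ ∑ x : O, ‖X (δ (x, 1)) (x, 1)‖ := norm_sum_le _ _
    _ ≤ ∑ x : O, ‖X‖ := Finset.sum_le_sum fun x _ => by
        refine (lp.norm_apply_le_norm (by norm_num) _ _).trans ?_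
        simpa [norm_δ] using X.le_opNorm (δ (x, 1))
    _ = 4 * ‖X‖ := by simp

lemma τ_star_mul (X : A) : τ (star X * X) = ((∑ x : O, ‖X (δ (x, 1))‖ ^ 2 : ℝ) : ℂ) := by
  unfold τ
  push_cast
  refine Finset.sum_congr rfl fun x _ => ?_
  show (star X (X (δ (x, 1)))) (x, 1) = _
  rw [← inner_δ, ContinuousLinearMap.star_eq_adjoint,
    ContinuousLinearMap.adjoint_inner_right, inner_self_eq_norm_sq_to_K]
  rfl

lemma N.ker {X : A} (hX : N X) (x y : O) (g : G) : X (δ (y, g)) (x, 1) = X (δ (y, 1)) (x, g⁻¹) := by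
  have h1 : δ (y, g) = L g⁻¹ (δ (y, 1)) := by
    ext ⟨z, k⟩
    simp only [L_apply, δ_apply, Prod.mk.injEq, inv_mul_eq_one]
    simp [eq_comm]
  rw [h1, ← ContinuousLinearMap.mul_apply, ← hX, ContinuousLinearMap.mul_apply, L_apply, mul_one]

lemma τ_mul {X Y : A} (hX : N X) :
    τ (X * Y) = ∑ x : O, ∑ y : O, ∑' g : G, X (δ (y, 1)) (x, g⁻¹) * Y (δ (x, 1)) (y, g) := by
  unfold τ
  refine Finset.sum_congr rfl fun x _ => ?_
  have h := lp.hasSum_inner (𝕜 := ℂ) (star X (δ (x, 1))) (Y (δ (x, 1)))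
  have e1 : ⟪star X (δ (x, 1)), Y (δ (x, 1))⟫_ℂ = (X * Y) (δ (x, 1)) (x, 1) := by
    rw [ContinuousLinearMap.star_eq_adjoint, ContinuousLinearMap.adjoint_inner_left, inner_δ]; rfl
  have e2 : ∀ p : V, ⟪star X (δ (x, 1)) p, Y (δ (x, 1)) p⟫_ℂ = X (δ (p.1, 1)) (x, p.2⁻¹) * Y (δ (x, 1)) p := by
    rintro ⟨y, g⟩
    rw [← hX.ker, ← inner_δ (y, g) (star X (δ (x, 1))), ContinuousLinearMap.star_eq_adjoint,
      ContinuousLinearMap.adjoint_inner_right, ← inner_δ (x, 1) (X (δ (y, g)))]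
    simp only [RCLike.inner_apply, inner_conj_symm]
    ring
  rw [e1] at h
  simp only [e2] at h
  have h2 := h.prod_fiberwise (fun y => (h.summable.prod_factor y).hasSum)
  rw [← h2.tsum_eq, tsum_fintype]

lemma τ_comm {X Y : A} (hX : N X) (hY : N Y) : τ (X * Y) = τ (Y * X) := by
  rw [τ_mul hX, τ_mul hY, Finset.sum_comm]
  refine Finset.sum_congr rfl fun x _ => Finset.sum_congr rfl fun y _ => ?_
  rw [← (Equiv.inv G).tsum_eq]
  simp [mul_comm]

/-- comparison of projections -/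
lemma τ_proj {P Q : A} (hP : star P = P) (hQ : star Q = Q) (hPP : P * P = P) (hQQ : Q * Q = Q)
    (h : Q * P = P) : τ Q - τ P = ((∑ x : O, ‖(Q - P) (δ (x, 1))‖ ^ 2 : ℝ) : ℂ) := by
  have h' : P * Q = P := by
    have := congrArg star h
    rwa [star_mul, hP, hQ] at this
  rw [← τ_star_mul, ← τ_sub, star_sub, hP, hQ, sub_mul, mul_sub, mul_sub, hQQ, h, h', hPP]
  simp

lemma τ_proj_le {P Q : A} (hP : star P = P) (hQ : star Q = Q) (hPP : P * P = P) (hQQ : Q * Q = Q)
    (h : Q * P = P) : (τ P).re ≤ (τ Q).re := by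
  have := congrArg Complex.re (τ_proj hP hQ hPP hQQ h)
  rw [Complex.ofReal_re, Complex.sub_re] at this
  have h2 : 0 ≤ ∑ x : O, ‖(Q - P) (δ (x, 1))‖ ^ 2 := by positivity
  linarith

/-- range projection of an operator bounded below on the hub coordinate -/
lemma graph {T : A} (hN : N T) (hT : T * E none = T) (hu : IsUnit (star T * T + (1 - E none))) :
    ∃ D : A, star (T * D * star T) = T * D * star T ∧ T * D * star T * T = T ∧ τ (T * D * star T) = 1 := by
  obtain ⟨w, hw⟩ := hu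
  set D : A := ↑w⁻¹
  set Wm := star T * T + (1 - E none) with hWm
  have h1 : Wm * D = 1 := by rw [← hw]; exact w.mul_inv
  have h2 : D * Wm = 1 := by rw [← hw]; exact w.inv_mul
  have hs : star Wm = Wm := by simp [hWm, star_E]
  have hD : star D = D := by
    have := congrArg star h1
    rw [star_mul, hs, star_one] at this
    calc star D = star D * (Wm * D) := by rw [h1, mul_one]
      _ = D := by rw [← mul_assoc, this, one_mul]
  have h3 : Wm * E none = star T * T := by
    rw [hWm, add_mul, sub_mul, E_mul, mul_assoc, hT]; simp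
  have h4 : D * (star T * T) = E none := by rw [← h3, ← mul_assoc, h2, one_mul]
  have hND : N D := N.inv ((hN.star.mul hN).add (N.one.sub (N.E _))) h1 h2
  refine ⟨D, by simp [hD, mul_assoc], ?_, ?_⟩
  · rw [mul_assoc, mul_assoc, h4, hT]
  · rw [mul_assoc, τ_comm hN (hND.mul hN.star), mul_assoc, h4, τ_E]

attribute [-simp] Complex.coe_smul

/-- hub to satellites -/
noncomputable def T (a c : Fin 3 → ℝ) : A :=
  ∑ i, E (some i) * (((a i : ℂ) • 1 + (c i : ℂ) • R (FreeGroup.of i)) * Sw i)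

@[simp] lemma T_none (a c) (u : K) (g : G) : T a c u (none, g) = 0 := by
  simp [T, Fin.sum_univ_three]
@[simp] lemma T_some (a c) (u : K) (i) (g : G) :
    T a c u (some i, g) = a i * u (none, g) + c i * u (none, g * FreeGroup.of i) := by
  fin_cases i <;> simp [T, Fin.sum_univ_three]
lemma star_T (a c) : star (T a c) =
    ∑ i, (Sw i * ((a i : ℂ) • 1 + (c i : ℂ) • R (FreeGroup.of i)⁻¹)) * E (some i) := by
  simp [T, star_sum, star_E, star_Sw, star_R]
@[simp] lemma sT_none (a c) (u : K) (g : G) : star (T a c) u (none, g) =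
    ∑ i, (a i * u (some i, g) + c i * u (some i, g * (FreeGroup.of i)⁻¹)) := by
  simp [star_T, Fin.sum_univ_three]
@[simp] lemma sT_some (a c) (u : K) (i) (g : G) : star (T a c) u (some i, g) = 0 := by
  fin_cases i <;> simp [star_T, Fin.sum_univ_three, Equiv.swap_apply_def]

lemma N_T (a c) : N (T a c) := fun g => by
  ext u ⟨_ | i, k⟩ <;> simp [mul_assoc]
lemma T_E (a c) : T a c * E none = T a c := by
  ext u ⟨_ | i, k⟩ <;> simp
lemma E_T (a c) : E none * T a c = 0 := by
  ext u ⟨_ | i, k⟩ <;> simp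
lemma E_sT (a c) : E none * star (T a c) = star (T a c) := by
  ext u ⟨_ | i, k⟩ <;> simp
lemma sT_E (a c) : star (T a c) * E none = 0 := by
  ext u ⟨_ | i, k⟩ <;> simp
lemma T_T (a c) : T a c * T a c = 0 := by
  ext u ⟨_ | i, k⟩ <;> simp
lemma sT_sT (a c) : star (T a c) * star (T a c) = 0 := by
  ext u ⟨_ | i, k⟩ <;> simp

noncomputable def H (b : O → ℝ) (a c : Fin 3 → ℝ) : A :=
  ∑ x, (b x : ℂ) • E x + (T a c + star (T a c))

lemma H_none (b a c) (u : K) (g : G) : H b a c u (none, g) =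
    b none * u (none, g) + ∑ i, (a i * u (some i, g) + c i * u (some i, g * (FreeGroup.of i)⁻¹)) := by
  simp [H, Fin.sum_univ_three]
lemma H_some (b a c) (u : K) (i) (g : G) : H b a c u (some i, g) =
    b (some i) * u (some i, g) + (a i * u (none, g) + c i * u (none, g * FreeGroup.of i)) := by
  fin_cases i <;> simp [H, Fin.sum_univ_three]
lemma H_sa (b a c) : IsSelfAdjoint (H b a c) := by
  simp [IsSelfAdjoint, H, star_sum, star_E, add_comm]
lemma H_zero (a c) : H 0 a c = T a c + star (T a c) := by simp [H]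
lemma τ_H (b a c) : τ (H b a c) = ∑ x, (b x : ℂ) := by
  simp [τ, H_none, H_some, δ_apply]

noncomputable def Y (t : Fin 3 → ℝ) : A := ∑ i, (t i : ℂ) • (R (FreeGroup.of i) + R (FreeGroup.of i)⁻¹)

lemma sT_T (a c) : star (T a c) * T a c =
    (((∑ i, (a i ^ 2 + c i ^ 2) : ℝ) : ℂ) • 1 + Y (fun i => a i * c i)) * E none := by
  ext u ⟨_ | i, k⟩
  · simp [Y, Fin.sum_univ_three]; ring
  · simp [Y, Fin.sum_univ_three]
lemma Y_E (t) : Y t * E none = E none * Y t := by
  ext u ⟨_ | i, k⟩ <;> simp [Y, Fin.sum_univ_three]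

lemma H_even (a c) (n : ℕ) : H 0 a c ^ (2 * (n + 1)) =
    (T a c * star (T a c)) ^ (n + 1) + (star (T a c) * T a c) ^ (n + 1) := by
  have h2 : H 0 a c ^ 2 = T a c * star (T a c) + star (T a c) * T a c := by
    rw [H_zero, sq, add_mul, mul_add, mul_add, T_T, sT_sT]; simp
  induction n with
  | zero => simpa using h2
  | succ n ih =>
    rw [show 2 * (n + 1 + 1) = 2 * (n + 1) + 2 by ring, pow_add, ih, h2, add_mul, mul_add, mul_add,
      ← pow_succ, ← pow_succ, pow_succ (T a c * _) n, pow_succ (star (T a c) * _) n]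
    have e1 : T a c * star (T a c) * (star (T a c) * T a c) = 0 := by
      rw [mul_assoc, ← mul_assoc (star (T a c)), sT_sT]; simp
    have e2 : star (T a c) * T a c * (T a c * star (T a c)) = 0 := by
      rw [mul_assoc, ← mul_assoc (T a c), T_T]; simp
    rw [mul_assoc _ _ (star (T a c) * T a c), e1, mul_assoc _ _ (T a c * star (T a c)), e2]
    simp

lemma τ_even (a c) (n : ℕ) : τ (H 0 a c ^ (2 * (n + 1))) = 2 * τ ((star (T a c) * T a c) ^ (n + 1)) := by
  rw [H_even, τ_add, two_mul]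
  congr 1
  have e : ∀ m, (T a c * star (T a c)) ^ (m + 1) = T a c * ((star (T a c) * T a c) ^ m * star (T a c)) := by
    intro m
    induction m with
    | zero => simp
    | succ m ih => rw [pow_succ, ih, pow_succ]; simp only [mul_assoc]
  rw [e, τ_comm (N_T a c) ((((N_T a c).star.mul (N_T a c)).pow n).mul (N_T a c).star), pow_succ, mul_assoc]

lemma τ_odd (a c) (n : ℕ) : τ (H 0 a c ^ (2 * n + 1)) = 0 := by
  have hN : N (H 0 a c) := by rw [H_zero]; exact (N_T a c).add (N_T a c).star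
  have hc : Commute (E none) (H 0 a c ^ (2 * n)) := by
    rw [pow_mul]
    refine Commute.pow_right ?_ n
    show _ * _ = _ * _
    have h2 : H 0 a c ^ 2 = T a c * star (T a c) + star (T a c) * T a c := by
      rw [H_zero, sq, add_mul, mul_add, mul_add, T_T, sT_sT]; simp
    rw [h2, mul_add, add_mul, ← mul_assoc, ← mul_assoc, E_T, E_sT, mul_assoc, mul_assoc, T_E, sT_E]
    simp
  rw [pow_succ]
  set Z := H 0 a c ^ (2 * n)
  have hZ : N Z := hN.pow _
  rw [H_zero, mul_add, τ_add]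
  have e1 : τ (Z * T a c) = 0 := by
    rw [← T_E, ← mul_assoc, τ_comm (hZ.mul (N_T a c)) (N.E _), ← mul_assoc, hc.eq, mul_assoc, E_T, mul_zero, τ_zero]
  have e2 : τ (Z * star (T a c)) = 0 := by
    rw [← E_sT, ← mul_assoc, ← hc.eq, mul_assoc, τ_comm (N.E _) (hZ.mul (N_T a c).star), mul_assoc, sT_E,
      mul_zero, τ_zero]
  rw [e1, e2, add_zero]

lemma sT_T_pow (a c) (n : ℕ) : (star (T a c) * T a c) ^ (n + 1) =
    (((∑ i, (a i ^ 2 + c i ^ 2) : ℝ) : ℂ) • 1 + Y (fun i => a i * c i)) ^ (n + 1) * E none := by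
  rw [sT_T]
  have hc : Commute (((∑ i, (a i ^ 2 + c i ^ 2) : ℝ) : ℂ) • (1 : A) + Y (fun i => a i * c i)) (E none) := by
    show _ * _ = _ * _
    rw [add_mul, mul_add, Y_E]; simp
  rw [hc.mul_pow]
  congr 1
  exact IsIdempotentElem.pow_succ_eq n (E_mul none)

def gen (s : Fin 3 × Bool) : G := FreeGroup.mk [s]
def bar (s : Fin 3 × Bool) : Fin 3 × Bool := (s.1, !s.2)
lemma Y_eq (t) : Y t = ∑ s : Fin 3 × Bool, (t s.1 : ℂ) • R (gen s) := by
  rw [Y, Fintype.sum_prod_type]
  refine Finset.sum_congr rfl fun i _ => ?_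
  rw [Fintype.sum_bool, smul_add]
  rfl
lemma τ_R (g : G) : τ (R g * E none) = if g = 1 then 1 else 0 := by
  simp [τ, δ_apply]
lemma g1 : ∀ s, ¬ gen s = 1 := by decide +kernel
lemma g2 : ∀ s r, gen s * gen r = 1 ↔ r = bar s := by decide +kernel
lemma g4 : ∀ s r p q, gen s * gen r * gen p * gen q = 1 ↔
    (r = bar s ∧ q = bar p) ∨ (p = bar r ∧ q = bar s) := by decide +kernel

lemma τ_Y1 (t) : τ (Y t * E none) = 0 := by
  simp [Y_eq, Finset.sum_mul, τ_sum, τ_smul, τ_R, g1]
lemma τ_Y2 (t) : τ (Y t ^ 2 * E none) = ((2 * ∑ i, t i ^ 2 : ℝ) : ℂ) := by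
  simp only [Y_eq, sq, Finset.sum_mul, Finset.mul_sum, smul_mul_assoc, mul_smul_comm, R_mul, τ_sum, τ_smul, τ_R, g2]
  simp [Fintype.sum_prod_type, Fin.sum_univ_three, bar]
  ring
lemma τ_Y4 (t) : τ (Y t ^ 4 * E none) = ((2 * (2 * ∑ i, t i ^ 2) ^ 2 - 2 * ∑ i, t i ^ 4 : ℝ) : ℂ) := by
  have : Y t ^ 4 = Y t * Y t * Y t * Y t := by simp [pow_succ]
  rw [this]
  simp only [Y_eq, Finset.sum_mul, Finset.mul_sum, smul_mul_assoc, mul_smul_comm, R_mul, τ_sum, τ_smul, τ_R, g4]
  simp [Fintype.sum_prod_type, Fin.sum_univ_three, bar]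
  ring

end Pool.Agent.H.MP_24ca2e_an
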