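import Mathlib
import Pool.Agent.H.MP_24ca2e_an.A

open scoped InnerProductSpace
open Filter Topology

namespace Pool.Agent.H.MP_24ca2e_an

attribute [-simp] Complex.coe_smul

noncomputable def P (X : A) : A := (X.ker).starProjection

lemma P_mem (X : A) (u : K) : X (P X u) = 0 := Submodule.starProjection_apply_mem X.ker u
lemma P_fix (X : A) (u : K) (h : X u = 0) : P X u = u := Submodule.starProjection_eq_self_iff.2 h
lemma P_star (X : A) : star (P X) = P X := isSelfAdjoint_starProjection X.ker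
lemma P_mul (X : A) : P X * P X = P X := by
  ext1 u; exact P_fix X _ (P_mem X u)

noncomputable def F (f : ℝ → ℝ) (X : A) : A := cfc (fun z : ℂ => ((f z.re : ℝ) : ℂ)) X

lemma Fc {f : ℝ → ℝ} (hf : Continuous f) (s : Set ℂ) : ContinuousOn (fun z : ℂ => ((f z.re : ℝ) : ℂ)) s :=
  (Complex.continuous_ofReal.comp (hf.comp Complex.continuous_re)).continuousOn
lemma F_mul {f g : ℝ → ℝ} (hf : Continuous f) (hg : Continuous g) (X : A) :
    F (fun x => f x * g x) X = F f X * F g X := by
  unfold F; rw [← cfc_mul _ _ X (Fc hf _) (Fc hg _)]; simp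
lemma F_add {f g : ℝ → ℝ} (hf : Continuous f) (hg : Continuous g) (X : A) :
    F (fun x => f x + g x) X = F f X + F g X := by
  unfold F; rw [← cfc_add X _ _ (Fc hf _) (Fc hg _)]; simp
lemma F_sub {f g : ℝ → ℝ} (hf : Continuous f) (hg : Continuous g) (X : A) :
    F (fun x => f x - g x) X = F f X - F g X := by
  unfold F; rw [← cfc_sub _ _ X (Fc hf _) (Fc hg _)]; simp
lemma F_pow {X : A} (hX : IsSelfAdjoint X) (c : ℝ) (n : ℕ) : F (fun x => c * x ^ n) X = (c : ℂ) • X ^ n := by
  have hn : IsStarNormal X := hX.isStarNormal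
  unfold F
  rw [← cfc_pow_id (R := ℂ) X n hn, ← cfc_const_mul (c : ℂ) _ X (by fun_prop)]
  refine cfc_congr fun z hz => ?_
  have := hX.mem_spectrum_eq_re hz
  simp only
  push_cast
  rw [← this]
lemma F_id {X : A} (hX : IsSelfAdjoint X) : F (fun x => x) X = X := by
  simpa using F_pow hX 1 1
lemma F_one {X : A} (hX : IsSelfAdjoint X) : F (fun _ => 1) X = 1 := by
  simpa using F_pow hX 1 0
lemma F_norm (f : ℝ → ℝ) (X : A) {c : ℝ} (hc : 0 ≤ c) (h : ∀ x : ℝ, |x| ≤ ‖X‖ → |f x| ≤ c) : ‖F f X‖ ≤ c := by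
  refine norm_cfc_le hc fun z hz => ?_
  have h1 : ‖z‖ ≤ ‖X‖ * ‖(1 : A)‖ := spectrum.norm_le_norm_mul_of_mem hz
  have h2 : ‖X‖ * ‖(1 : A)‖ ≤ ‖X‖ := mul_le_of_le_one_right (norm_nonneg _) ContinuousLinearMap.norm_id_le
  rw [Complex.norm_real, Real.norm_eq_abs]
  exact h _ ((Complex.abs_re_le_norm z).trans (h1.trans h2))
lemma τ_poly {X Z : A} (hX : IsSelfAdjoint X) (hZ : IsSelfAdjoint Z) (h : ∀ n : ℕ, τ (X ^ n) = τ (Z ^ n))
    (q : Polynomial ℝ) : τ (F (fun x => q.eval x) X) = τ (F (fun x => q.eval x) Z) := by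
  induction q using Polynomial.induction_on' with
  | add p q hp hq =>
    simp only [Polynomial.eval_add]
    rw [F_add p.continuous q.continuous, F_add p.continuous q.continuous, τ_add, τ_add, hp, hq]
  | monomial n c =>
    simp only [Polynomial.eval_monomial]
    rw [F_pow hX, F_pow hZ, τ_smul, τ_smul, h]

noncomputable def fn (n : ℕ) (x : ℝ) : ℝ := 1 / (1 + (n * x) ^ 2)
lemma fn_cont (n : ℕ) : Continuous (fn n) := by
  unfold fn
  exact continuous_const.div (by fun_prop) (fun x => by positivity)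

lemma fn_lim (X : A) (hX : IsSelfAdjoint X) (u : K) :
    Tendsto (fun n => F (fn n) X u) atTop (𝓝 (P X u)) := by
  have c1 : ∀ n, ‖F (fn n) X‖ ≤ 1 := fun n => F_norm _ _ zero_le_one fun x _ => by
    rw [fn, abs_of_nonneg (by positivity), div_le_one (by positivity)]
    nlinarith [sq_nonneg (n * x : ℝ)]
  have c2 : ∀ n : ℕ, 0 < n → ‖F (fn n) X * X‖ ≤ 1 / n := fun n hn => by
    have e : F (fn n) X * X = F (fun x => fn n x * x) X := by
      rw [F_mul (fn_cont n) continuous_id', F_id hX]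
    rw [e]
    refine F_norm _ _ (by positivity) fun x _ => ?_
    have hn' : (0 : ℝ) < n := by exact_mod_cast hn
    rw [fn, abs_mul, abs_of_nonneg (a := 1 / (1 + (n * x) ^ 2)) (by positivity), div_mul_eq_mul_div, one_mul,
      div_le_div_iff₀ (by positivity) hn']
    have : (n * x : ℝ) ^ 2 = (|x| * n) ^ 2 := by rw [mul_pow, mul_pow, sq_abs]; ring
    rw [this]
    nlinarith [sq_nonneg (|x| * n - 1), sq_nonneg (|x| * n)]
  have c3 : ∀ n : ℕ, ∀ v : K, X v = 0 → F (fn n) X v = v := fun n v hv => by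
    have hc : Continuous (fun x : ℝ => (n : ℝ) ^ 2 * x * fn n x) := by
      have := fn_cont n
      fun_prop
    have e : F (fn n) X + F (fun x : ℝ => (n : ℝ) ^ 2 * x * fn n x) X * X = 1 := by
      have e1 : F (fun x : ℝ => (n : ℝ) ^ 2 * x * fn n x) X * X = F (fun x => ((n : ℝ) ^ 2 * x * fn n x) * x) X := by
        rw [F_mul hc continuous_id', F_id hX]
      rw [e1, ← F_add (g := fun x => ((n : ℝ) ^ 2 * x * fn n x) * x) (fn_cont n) (hc.mul continuous_id'), ← F_one hX]
      congr 1; ext x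
      simp only [fn]; field_simp
    have := congrArg (fun Z : A => Z v) e
    simpa [hv] using this
  have hw : u - P X u ∈ closure (Set.range X) := by
    have h1 : u - P X u ∈ (X.ker)ᗮ := Submodule.sub_starProjection_mem_orthogonal u
    rw [ContinuousLinearMap.orthogonal_ker, ← ContinuousLinearMap.star_eq_adjoint, hX.star_eq] at h1
    exact h1
  rw [Metric.tendsto_atTop]
  intro ε hε
  obtain ⟨_, ⟨v, rfl⟩, hv⟩ := Metric.mem_closure_iff.1 hw (ε / 2) (by positivity)
  obtain ⟨n0, hn0⟩ := exists_nat_gt (‖v‖ / (ε / 2))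
  refine ⟨n0 + 1, fun n hn => ?_⟩
  have hn' : (n0 : ℝ) + 1 ≤ n := by exact_mod_cast hn
  have hnp : (0 : ℝ) < n := by have : (0 : ℝ) ≤ n0 := by positivity
                               linarith
  have e : F (fn n) X u - P X u = F (fn n) X (u - P X u - X v) + (F (fn n) X * X) v := by
    rw [map_sub, map_sub, c3 n _ (P_mem X u)]; simp
  rw [dist_eq_norm, e]
  rw [dist_eq_norm] at hv
  have b1 : ‖F (fn n) X (u - P X u - X v)‖ ≤ ‖u - P X u - X v‖ :=
    ((F (fn n) X).le_opNorm _).trans (mul_le_of_le_one_left (norm_nonneg _) (c1 n))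
  have b2 : ‖(F (fn n) X * X) v‖ ≤ 1 / n * ‖v‖ :=
    (ContinuousLinearMap.le_opNorm _ _).trans (by gcongr; exact c2 n (by omega))
  have b3 : 1 / n * ‖v‖ ≤ ε / 2 := by
    rw [div_lt_iff₀ (by positivity)] at hn0
    rw [div_mul_eq_mul_div, one_mul, div_le_iff₀ hnp]
    nlinarith
  linarith [norm_add_le (F (fn n) X (u - P X u - X v)) ((F (fn n) X * X) v)]

lemma τ_lim (X : A) (hX : IsSelfAdjoint X) : Tendsto (fun n => τ (F (fn n) X)) atTop (𝓝 (τ (P X))) := by
  unfold τ
  refine tendsto_finset_sum _ fun x _ => ?_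
  simp only [← inner_δ]
  exact tendsto_const_nhds.inner (fn_lim X hX _)

def Same (X Z : A) : Prop := ∀ f : ℝ → ℝ, Continuous f → τ (F f X) = τ (F f Z)

lemma Same.P {X Z : A} (h : Same X Z) (hX : IsSelfAdjoint X) (hZ : IsSelfAdjoint Z) : τ (P X) = τ (P Z) := by
  have h1 := τ_lim X hX
  simp only [h _ (fn_cont _)] at h1
  exact tendsto_nhds_unique h1 (τ_lim Z hZ)

lemma Same.pow {X Z : A} (h : Same X Z) (hX : IsSelfAdjoint X) (hZ : IsSelfAdjoint Z) (n : ℕ) :
    τ (X ^ n) = τ (Z ^ n) := by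
  have := h (fun x => 1 * x ^ n) (by fun_prop)
  rw [F_pow hX, F_pow hZ] at this
  simpa using this

lemma same_of_pow {X Z : A} (hX : IsSelfAdjoint X) (hZ : IsSelfAdjoint Z) (h : ∀ n : ℕ, τ (X ^ n) = τ (Z ^ n)) :
    Same X Z := by
  intro f hf
  have hp := τ_poly hX hZ h
  set C := max ‖X‖ ‖Z‖
  refine eq_of_forall_dist_le fun ε hε => ?_
  obtain ⟨q, hq⟩ := exists_polynomial_near_of_continuousOn (-C) C f hf.continuousOn (ε / 8) (by positivity)
  have key : ∀ B : A, IsSelfAdjoint B → ‖B‖ ≤ C → ‖τ (F (fun x => q.eval x) B) - τ (F f B)‖ ≤ ε / 2 := fun B hB hC => by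
    rw [← τ_sub, ← F_sub q.continuous hf]
    refine (τ_norm _).trans ?_
    have : ‖F (fun x => q.eval x - f x) B‖ ≤ ε / 8 := F_norm _ _ (by positivity) fun x hx =>
      (hq x (abs_le.1 (hx.trans hC))).le
    linarith
  have k1 := key X hX (le_max_left _ _)
  have k2 := key Z hZ (le_max_right _ _)
  rw [hp] at k1
  rw [dist_eq_norm]
  calc _ = ‖(τ (F (fun x => q.eval x) Z) - τ (F f Z)) - (τ (F (fun x => q.eval x) Z) - τ (F f X))‖ := by congr 1; ring
    _ ≤ _ := norm_sub_le _ _
    _ ≤ ε := by linarith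

lemma Y_norm (t : Fin 3 → ℝ) : ‖Y t‖ ≤ ∑ i, |t i| * 2 := by
  have hR : ∀ g, ‖R g‖ ≤ 1 := fun g => by
    unfold R U W
    exact LinearMap.mkContinuous_norm_le _ zero_le_one _
  refine (norm_sum_le _ _).trans (Finset.sum_le_sum fun i _ => ?_)
  rw [norm_smul, Complex.norm_real, Real.norm_eq_abs]
  gcongr
  linarith [norm_add_le (R (FreeGroup.of i)) (R (FreeGroup.of i)⁻¹), hR (FreeGroup.of i), hR (FreeGroup.of i)⁻¹]

noncomputable def a0 : Fin 3 → ℝ := ![2, 1, 1]
noncomputable def c0 : Fin 3 → ℝ := ![1 / 2, 1, 1]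
lemma t0 : (fun i => a0 i * c0 i) = fun _ => 1 := by
  ext i; fin_cases i <;> simp [a0, c0]
lemma S0 : ∑ i, (a0 i ^ 2 + c0 i ^ 2) = 33 / 4 := by
  simp [a0, c0, Fin.sum_univ_three]; norm_num

lemma unit_aux {M B e : A} (he : e * e = e) (hB : B * e = e * B) (i : M * B = 1) :
    (M * e + (1 - e)) * (B * e + (1 - e)) = 1 := by
  have h1 : M * e * (B * e) = e := by
    rw [mul_assoc, ← mul_assoc e, ← hB, mul_assoc B, he, ← mul_assoc, i, one_mul]
  have h2 : M * e * (1 - e) = 0 := by rw [mul_assoc, mul_sub, he]; simp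
  have h3 : (1 - e) * (B * e) = 0 := by rw [hB, ← mul_assoc, sub_mul, he]; simp
  have h4 : (1 - e) * (1 - e) = 1 - e := by rw [mul_sub, sub_mul, sub_mul, he]; simp
  rw [add_mul, mul_add, mul_add, h1, h2, h3, h4]; simp

lemma low : 2 ≤ (τ (P (H 0 a0 c0))).re := by
  have hu : IsUnit (star (T a0 c0) * T a0 c0 + (1 - E none)) := by
    rw [sT_T, t0, S0]
    set M : A := (((33 / 4 : ℝ) : ℂ)) • 1 + Y fun _ => 1 with hM
    have hMu : IsUnit M := by
      have h1 : ‖(-(4 / 33 : ℂ)) • Y (fun _ => 1)‖ < 1 := by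
        rw [norm_smul]
        have := Y_norm (fun _ => 1)
        simp at this ⊢
        linarith
      have h2 := (Units.oneSub _ h1).isUnit
      rw [Units.val_oneSub] at h2
      have h3 : M = (33 / 4 : ℂ) • (1 - (-(4 / 33 : ℂ)) • Y (fun _ => 1)) := by
        rw [hM]; push_cast; module
      rw [h3, Algebra.smul_def]
      exact (IsUnit.map _ (IsUnit.mk0 _ (by norm_num))).mul h2
    obtain ⟨w, hw⟩ := hMu
    have hc : M * E none = E none * M := by rw [hM, add_mul, mul_add, Y_E]; simp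
    have hc' : (↑w⁻¹ : A) * E none = E none * ↑w⁻¹ := by
      have : Commute (↑w : A) (E none) := by rw [hw]; exact hc
      exact this.units_inv_left
    have i1 : M * ↑w⁻¹ = 1 := by rw [← hw]; exact w.mul_inv
    have i2 : ↑w⁻¹ * M = 1 := by rw [← hw]; exact w.inv_mul
    exact ⟨⟨_, ↑w⁻¹ * E none + (1 - E none), unit_aux (E_mul _) hc' i1, unit_aux (E_mul _) hc i2⟩, rfl⟩
  obtain ⟨D, h1, h2, h3⟩ := graph (N_T a0 c0) (T_E a0 c0) hu
  set Q := T a0 c0 * D * star (T a0 c0) with hQ
  have QQ : Q * Q = Q := by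
    calc Q * Q = Q * T a0 c0 * D * star (T a0 c0) := by rw [hQ]; simp only [mul_assoc]
      _ = Q := by rw [h2]
  have QE : Q * E none = 0 := by rw [hQ, mul_assoc, sT_E, mul_zero]
  have EQ : E none * Q = 0 := by rw [hQ, ← mul_assoc, ← mul_assoc, E_T]; simp
  have QsT : Q * star (T a0 c0) = 0 := by rw [hQ, mul_assoc, sT_sT, mul_zero]
  have hs : star (1 - (Q + E none)) = 1 - (Q + E none) := by simp [h1, star_E]
  have hH : (1 - (Q + E none)) * H 0 a0 c0 = 0 := by
    rw [H_zero, sub_mul, add_mul, one_mul, mul_add, mul_add, h2, QsT, E_T, E_sT]; simp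
  have hH' : H 0 a0 c0 * (1 - (Q + E none)) = 0 := by
    have := congrArg star hH
    rwa [star_mul, hs, (H_sa _ _ _).star_eq, star_zero] at this
  have hle := τ_proj_le hs (P_star (H 0 a0 c0)) (by
      simp only [sub_mul, mul_sub, add_mul, mul_add, QQ, QE, EQ, E_mul, one_mul, mul_one]; abel) (P_mul _) (by
      ext1 u
      exact P_fix _ _ (congrArg (fun Z : A => Z u) hH'))
  rw [τ_sub, τ_add, h3, τ_E, τ_one] at hle
  norm_num at hle
  exact hle

lemma vanish (u : K) (a c : ℝ) (ha : 0 < a) (hc : 0 < c) (i : Fin 3)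
    (h : ∀ g : G, a * u (none, g) + c * u (none, g * FreeGroup.of i) = 0) (g : G) : u (none, g) = 0 := by
  have hlim : Tendsto (fun p => ‖u p‖ ^ 2) cofinite (𝓝 0) := (norm_sq u).summable.tendsto_cofinite_zero
  have key : ∀ x : G, (∀ n : ℕ, n ≠ 0 → x ^ n ≠ 1) → (∀ k : G, ‖u (none, k)‖ ≤ ‖u (none, k * x)‖) → u (none, g) = 0 := by
    intro x hx hk
    have hinj : Function.Injective (fun n : ℕ => ((none, g * x ^ n) : V)) := by
      intro m n hmn
      simp only [Prod.mk.injEq, true_and, mul_right_inj] at hmn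
      have : ¬ IsOfFinOrder x := by
        rw [isOfFinOrder_iff_pow_eq_one]
        rintro ⟨n, hn, h⟩
        exact hx n hn.ne' h
      exact injective_pow_iff_not_isOfFinOrder.2 this hmn
    have h1 := hlim.comp (hinj.tendsto_cofinite)
    rw [Nat.cofinite_eq_atTop] at h1
    have h2 : ∀ n : ℕ, ‖u (none, g)‖ ≤ ‖u (none, g * x ^ n)‖ := fun n => by
      induction n with
      | zero => simp
      | succ n ih => rw [pow_succ, ← mul_assoc]; exact ih.trans (hk _)
    have h3 : ‖u (none, g)‖ ^ 2 ≤ 0 := ge_of_tendsto' h1 fun n => by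
      simp only [Function.comp]
      gcongr
      exact h2 n
    have : ‖u (none, g)‖ = 0 := by nlinarith [norm_nonneg (u (none, g))]
    simpa using this
  have hn : ∀ k : G, a * ‖u (none, k)‖ = c * ‖u (none, k * FreeGroup.of i)‖ := fun k => by
    have := congrArg norm (eq_neg_of_add_eq_zero_left (h k))
    simpa [abs_of_pos ha, abs_of_pos hc] using this
  have ho : ∀ n : ℕ, n ≠ 0 → (FreeGroup.of i : G) ^ n ≠ 1 := fun n hn h => by
    have := congrArg (FreeGroup.lift (fun _ : Fin 3 => Multiplicative.ofAdd (1 : ℤ))) h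
    simp [← ofAdd_nsmul] at this
    exact hn this
  rcases le_total c a with h1 | h1
  · refine key (FreeGroup.of i) ho fun k => ?_
    have := hn k
    nlinarith [norm_nonneg (u (none, k)), norm_nonneg (u (none, k * FreeGroup.of i))]
  · refine key (FreeGroup.of i)⁻¹ (fun n hn h => ho n hn (by simpa using h)) fun k => ?_
    have := hn (k * (FreeGroup.of i)⁻¹)
    rw [inv_mul_cancel_right] at this
    nlinarith [norm_nonneg (u (none, k)), norm_nonneg (u (none, k * (FreeGroup.of i)⁻¹))]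

lemma high (b : O → ℝ) (a c : Fin 3 → ℝ) (ha : ∀ i, 0 < a i) (hc : ∀ i, 0 < c i) (k : Fin 3)
    (hk : b (some k) ≠ 0) : (τ (P (H b a c))).re < 2 := by
  by_cases hall : ∀ i, b (some i) ≠ 0
  · set T' := T (fun i => - a i / b (some i)) (fun i => - c i / b (some i)) with hT'
    have hu : IsUnit (star (E none + T') * (E none + T') + (1 - E none)) := by
      have e : star (E none + T') * (E none + T') + (1 - E none) = 1 + star T' * T' := by
        rw [star_add, star_E, add_mul, mul_add, mul_add, E_mul, hT', E_T, sT_E]; abel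
      rw [e]
      exact CStarAlgebra.isUnit_of_le 1 (le_add_of_nonneg_right (star_mul_self_nonneg T')) isStrictlyPositive_one
    obtain ⟨D, h1, h2, h3⟩ := graph ((N.E none).add (N_T _ _)) (by rw [add_mul, E_mul, T_E]) hu
    set Q := (E none + T') * D * star (E none + T') with hQ
    have QQ : Q * Q = Q := by
      calc Q * Q = Q * (E none + T') * D * star (E none + T') := by rw [hQ]; simp only [mul_assoc]
        _ = Q := by rw [h2]
    have hP : (E none + T') * P (H b a c) = P (H b a c) := by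
      ext u ⟨_ | i, g⟩
      · simp [hT']
      · have := congrArg (fun v : K => v (some i, g)) (P_mem (H b a c) u)
        simp only [H_some] at this
        have hb : (b (some i) : ℂ) ≠ 0 := by exact_mod_cast hall i
        simp [hT']
        field_simp
        simp at this
        linear_combination -this
    have hle := τ_proj_le (P_star (H b a c)) h1 (P_mul _) QQ (by
      rw [← hP, ← mul_assoc, h2])
    rw [h3] at hle
    norm_num at hle
    linarith
  · push Not at hall
    obtain ⟨j, hj⟩ := hall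
    have hjk : j ≠ k := fun h => hk (h ▸ hj)
    have z1 : ∀ u : K, H b a c u = 0 → ∀ g, u (none, g) = 0 := fun u hu => by
      refine vanish u (a j) (c j) (ha j) (hc j) j fun g => ?_
      have := congrArg (fun v : K => v (some j, g)) hu
      simpa [H_some, hj] using this
    have z2 : ∀ u : K, H b a c u = 0 → ∀ g, u (some k, g) = 0 := fun u hu g => by
      have := congrArg (fun v : K => v (some k, g)) hu
      simpa [H_some, z1 u hu, hk] using this
    set Fq : A := 1 - (E none + E (some k)) with hF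
    have Fa : ∀ (u : K) (p : V), Fq u p = if p.1 = none ∨ p.1 = some k then 0 else u p := by
      rintro u ⟨_ | i, g⟩
      · simp [hF]
      · by_cases h : i = k
        · subst h; simp [hF]
        · simp [hF, h]
    have h := τ_proj (P_star (H b a c)) (Q := Fq) (by simp [hF, star_E]) (P_mul _)
      (by ext u p; simp only [ContinuousLinearMap.mul_apply, Fa]; split_ifs <;> rfl)
      (by
        ext u ⟨x, g⟩
        simp only [ContinuousLinearMap.mul_apply, Fa]
        split_ifs with h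
        · rcases h with rfl | rfl
          · exact (z1 _ (P_mem _ _) g).symm
          · exact (z2 _ (P_mem _ _) g).symm
        · rfl)
    have hF2 : τ Fq = 2 := by rw [hF, τ_sub, τ_add, τ_E, τ_E, τ_one]; norm_num
    have hpos : 0 < ∑ x : O, ‖(Fq - P (H b a c)) (δ (x, 1))‖ ^ 2 := by
      refine Finset.sum_pos' (fun _ _ => by positivity) ⟨some j, Finset.mem_univ _, ?_⟩
      refine pow_pos (norm_pos_iff.2 fun h0 => ?_) 2
      have e1 : Fq (δ (some j, 1)) = δ (some j, 1) := by
        ext ⟨x, g⟩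
        rw [Fa]
        split_ifs with h
        · rcases h with rfl | rfl <;> simp [δ_apply, hjk.symm]
        · rfl
      rw [ContinuousLinearMap.sub_apply, e1, sub_eq_zero] at h0
      have e2 := P_mem (H b a c) (δ (some j, 1))
      rw [← h0] at e2
      have := z1 _ e2
      have e3 := congrArg (fun v : K => v (none, 1)) e2
      simp [H_none, δ_apply, ite_and] at e3
      exact (ha j).ne' e3
    have := congrArg Complex.re h
    rw [Complex.ofReal_re, Complex.sub_re, hF2] at this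
    have h2 : (2 : ℂ).re = 2 := by norm_num
    linarith

lemma same_iff (b : O → ℝ) (a c : Fin 3 → ℝ) (ha : ∀ i, 0 < a i) (hc : ∀ i, 0 < c i) :
    Same (H b a c) (H 0 a0 c0) ↔ b = 0 ∧ (∀ i, a i * c i = 1) ∧ ∑ i, (a i ^ 2 + c i ^ 2) = 33 / 4 := by
  constructor
  · intro h
    have hb : ∀ i, b (some i) = 0 := fun i => by
      by_contra hk
      have h1 := high b a c ha hc i hk
      rw [h.P (H_sa _ _ _) (H_sa _ _ _)] at h1
      linarith [low]
    have hm := h.pow (H_sa _ _ _) (H_sa _ _ _)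
    have hb0 : b = 0 := by
      have := hm 1
      rw [pow_one, pow_one, τ_H, τ_H] at this
      simp [hb] at this
      ext (_ | i)
      · exact this
      · exact hb i
    subst hb0
    have hM : ∀ n, τ ((((∑ i, (a i ^ 2 + c i ^ 2) : ℝ) : ℂ) • 1 + Y (fun i => a i * c i)) ^ (n + 1) * E none) =
        τ ((((33 / 4 : ℝ) : ℂ) • 1 + Y (fun _ => 1)) ^ (n + 1) * E none) := fun n => by
      have := hm (2 * (n + 1))
      rw [τ_even, τ_even, sT_T_pow, sT_T_pow, t0, S0] at this
      exact mul_left_cancel₀ two_ne_zero this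
    have x1 : ∀ (s : ℂ) (Z : A), τ ((s • 1 + Z) ^ (0 + 1) * E none) = s + τ (Z * E none) := fun s Z => by
      simp [add_mul, τ_add, τ_smul, τ_E]
    have x2 : ∀ (s : ℂ) (Z : A), τ ((s • 1 + Z) ^ (1 + 1) * E none) =
        s ^ 2 + 2 * s * τ (Z * E none) + τ (Z ^ 2 * E none) := fun s Z => by
      have : (s • 1 + Z) ^ (1 + 1) = s ^ 2 • 1 + (2 * s) • Z + Z ^ 2 := by
        simp only [pow_succ, pow_zero, one_mul, add_mul, mul_add, smul_mul_assoc, mul_smul_comm, mul_one]; module
      rw [this]; simp [add_mul, τ_add, τ_smul, τ_E]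
    have x3 : ∀ (s : ℂ) (Z : A), τ ((s • 1 + Z) ^ (2 + 1) * E none) =
        s ^ 3 + 3 * s ^ 2 * τ (Z * E none) + 3 * s * τ (Z ^ 2 * E none) + τ (Z ^ 3 * E none) := fun s Z => by
      have : (s • 1 + Z) ^ (2 + 1) = s ^ 3 • 1 + (3 * s ^ 2) • Z + (3 * s) • Z ^ 2 + Z ^ 3 := by
        simp only [pow_succ, pow_zero, one_mul, add_mul, mul_add, smul_mul_assoc, mul_smul_comm, mul_one]; module
      rw [this]; simp [add_mul, τ_add, τ_smul, τ_E]
    have x4 : ∀ (s : ℂ) (Z : A), τ ((s • 1 + Z) ^ (3 + 1) * E none) =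
        s ^ 4 + 4 * s ^ 3 * τ (Z * E none) + 6 * s ^ 2 * τ (Z ^ 2 * E none) + 4 * s * τ (Z ^ 3 * E none)
          + τ (Z ^ 4 * E none) := fun s Z => by
      have : (s • 1 + Z) ^ (3 + 1) = s ^ 4 • 1 + (4 * s ^ 3) • Z + (6 * s ^ 2) • Z ^ 2 + (4 * s) • Z ^ 3 + Z ^ 4 := by
        simp only [pow_succ, pow_zero, one_mul, add_mul, mul_add, smul_mul_assoc, mul_smul_comm, mul_one]; module
      rw [this]; simp [add_mul, τ_add, τ_smul, τ_E]
    have m1 := hM 0
    have m2 := hM 1
    have m3 := hM 2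
    have m4 := hM 3
    rw [x1, x1, τ_Y1, τ_Y1, add_zero, add_zero] at m1
    rw [x2, x2, τ_Y1, τ_Y1, m1] at m2
    rw [x3, x3, τ_Y1, τ_Y1, m1] at m3
    rw [x4, x4, τ_Y1, τ_Y1, m1] at m4
    have y2 : τ (Y (fun i => a i * c i) ^ 2 * E none) = τ (Y (fun _ => 1) ^ 2 * E none) := by
      linear_combination m2
    have y3 : τ (Y (fun i => a i * c i) ^ 3 * E none) = τ (Y (fun _ => 1) ^ 3 * E none) := by
      rw [y2] at m3; linear_combination m3
    have y4 : τ (Y (fun i => a i * c i) ^ 4 * E none) = τ (Y (fun _ => 1) ^ 4 * E none) := by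
      rw [y2, y3] at m4; linear_combination m4
    rw [τ_Y2, τ_Y2, Complex.ofReal_inj] at y2
    rw [τ_Y4, τ_Y4, Complex.ofReal_inj, y2] at y4
    rw [Complex.ofReal_inj] at m1
    refine ⟨rfl, fun i => ?_, m1⟩
    have hs : ∑ j, ((a j * c j) ^ 2 - 1) ^ 2 = 0 := by
      simp only [Fin.sum_univ_three] at y2 y4 ⊢
      linarith
    have := (Finset.sum_eq_zero_iff_of_nonneg (fun _ _ => sq_nonneg _)).1 hs i (Finset.mem_univ _)
    have h2 : (a i * c i - 1) * (a i * c i + 1) = 0 := by
      have := pow_eq_zero_iff two_ne_zero |>.1 this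
      linarith
    have h3 := mul_pos (ha i) (hc i)
    rcases mul_eq_zero.1 h2 with h | h <;> linarith
  · rintro ⟨rfl, ht, hS⟩
    refine same_of_pow (H_sa _ _ _) (H_sa _ _ _) fun n => ?_
    rcases Nat.even_or_odd' n with ⟨k, rfl | rfl⟩
    · rcases k with _ | k
      · simp
      · rw [τ_even, τ_even, sT_T, sT_T, hS, S0, t0, funext ht]
    · rw [τ_odd, τ_odd]

end Pool.Agent.H.MP_24ca2e_an
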