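import Mathlib

open Filter Topology

namespace Pool.Agent.H.MP_24ca2e_an

abbrev S2 := Metric.sphere (0 : EuclideanSpace ℝ (Fin 3)) 1
abbrev E2 := EuclideanSpace ℝ (Fin 2)

instance : Fact (Module.finrank ℝ (EuclideanSpace ℝ (Fin 3)) = 2 + 1) := ⟨by simp⟩

lemma chart (p : S2) : ∃ (s : E2 → S2) (r : S2 → E2), Continuous s ∧ ContinuousOn r {p}ᶜ ∧
    (∀ x, s x ≠ p) ∧ (∀ x, r (s x) = x) ∧ ∀ y, y ≠ p → s (r y) = y := by
  let e := stereographic' 2 p
  have h1 : e.source = {p}ᶜ := stereographic'_source p
  have h2 : e.target = Set.univ := stereographic'_target p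
  refine ⟨e.symm, e, ?_, ?_, fun x => ?_, fun x => ?_, fun y hy => ?_⟩
  · rw [← continuousOn_univ, ← h2]; exact e.continuousOn_symm
  · rw [← h1]; exact e.continuousOn
  · have := e.map_target (x := x) (by simp [h2])
    rwa [h1] at this
  · exact e.right_inv (by simp [h2])
  · exact e.left_inv (by simpa [h1] using hy)

lemma not_torus (k : ℕ) : IsEmpty (S2 ≃ₜ (Fin k → Circle)) := by
  refine ⟨fun h => ?_⟩
  rcases k with _ | _ | k
  · obtain ⟨s, r, -, -, -, h4, -⟩ := chart (h.symm 1)
    have : s 0 = s (EuclideanSpace.single 0 1) := h.injective (Subsingleton.elim _ _)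
    have h2 := congrArg r this
    rw [h4, h4] at h2
    have := congrArg (fun v : E2 => v 0) h2
    simp at this
  · obtain ⟨s, r, hs, -, h3, h4, h5⟩ := chart (h.symm 1)
    set q := h.symm (fun _ => Circle.exp Real.pi)
    have hc : IsPreconnected ({r q}ᶜ : Set E2) :=
      (isConnected_compl_singleton_of_one_lt_rank (by simp [← Module.finrank_eq_rank]) _).isPreconnected
    let φ : E2 → ℝ := fun x => ((h (s x) 0 : Circle) : ℂ).im
    have hφ : Continuous φ := by fun_prop
    have val : ∀ t : ℝ, Real.sin t ≠ 0 → r (h.symm (fun _ => Circle.exp t)) ∈ ({r q}ᶜ : Set E2) ∧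
        φ (r (h.symm (fun _ => Circle.exp t))) = Real.sin t := fun t ht => by
      have im : ∀ t : ℝ, ((Circle.exp t : Circle) : ℂ).im = Real.sin t := fun t => by
        simp [Complex.exp_ofReal_mul_I_im]
      have n1 : h.symm (fun _ => Circle.exp t) ≠ h.symm 1 := fun e => by
        have := congrFun (h.symm.injective e) 0
        apply ht
        rw [← im, this]; simp
      have n2 : q ≠ h.symm 1 := fun e => by
        have := congrArg (fun z : Circle => (z : ℂ).re) (congrFun (h.symm.injective e) 0)
        simp at this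
        norm_num at this
      refine ⟨fun e => ?_, ?_⟩
      · have := congrArg s e
        rw [h5 _ n1, h5 _ n2] at this
        have := congrFun (h.symm.injective this) 0
        apply ht
        rw [← im, this, im]; simp
      · simp only [φ]
        rw [h5 _ n1, h.apply_symm_apply, im]
    obtain ⟨a1, a2⟩ := val (-(Real.pi / 2)) (by simp)
    obtain ⟨b1, b2⟩ := val (Real.pi / 2) (by simp)
    obtain ⟨x, hx, hx0⟩ := hc.intermediate_value a1 b1 hφ.continuousOn (show (0 : ℝ) ∈ _ by
      rw [a2, b2]; simp)
    have hz : ‖((h (s x) 0 : Circle) : ℂ)‖ = 1 := Circle.norm_coe _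
    have hre : ((h (s x) 0 : Circle) : ℂ).re ^ 2 = 1 := by
      have := Complex.sq_norm_sub_sq_im ((h (s x) 0 : Circle) : ℂ)
      simp only [φ] at hx0
      rw [hz, hx0] at this
      linarith
    have : ((h (s x) 0 : Circle) : ℂ).re = 1 ∨ ((h (s x) 0 : Circle) : ℂ).re = -1 := by
      exact mul_self_eq_one_iff.1 (by rw [← sq]; exact hre)
    rcases this with e | e
    · apply h3 x
      apply h.injective
      rw [h.apply_symm_apply]
      ext i
      rw [show i = 0 from Fin.fin_one_eq_zero i]
      exact Complex.ext (by simpa using e) (by simpa [φ] using hx0)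
    · apply hx
      have : s x = q := by
        apply h.injective
        rw [h.apply_symm_apply]
        ext i
        rw [show i = 0 from Fin.fin_one_eq_zero i]
        exact Complex.ext (by simpa using e) (by simpa [φ] using hx0)
      rw [← this, h4]; rfl
  · set p := h.symm (fun _ => Circle.exp Real.pi)
    obtain ⟨s, r, hs, hr, h3, h4, h5⟩ := chart p
    let γ : ℝ → S2 := fun t => h.symm (Function.update 1 0 (Circle.exp t))
    have hγ : Continuous γ := by
      refine h.symm.continuous.comp ?_
      exact continuous_const.update 0 Circle.exp.continuous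
    have hne : ∀ t, γ t ≠ p := fun t e => by
      have := congrArg (fun z : Circle => (z : ℂ).re) (congrFun (h.symm.injective e) 1)
      simp at this
      norm_num at this
    let f : C(E2, Circle) := ⟨fun x => h (s x) 0, by fun_prop⟩
    obtain ⟨L, ⟨hL0, hL⟩, -⟩ := Circle.isCoveringMap_exp.existsUnique_continuousMap_lifts f (r (γ 0)) 0 (by
      simp only [f, ContinuousMap.coe_mk]
      rw [h5 _ (hne 0)]; simp [γ])
    have hc : Continuous (fun t => L (r (γ t))) :=
      L.continuous.comp (hr.comp_continuous hγ hne)
    have he : (fun t => L (r (γ t))) = id := by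
      refine Circle.isCoveringMap_exp.eq_of_comp_eq hc continuous_id ?_ 0 hL0
      ext1 t
      have := congrFun hL (r (γ t))
      simp only [Function.comp, f, ContinuousMap.coe_mk] at this ⊢
      rw [this, h5 _ (hne t)]; simp [γ]
    have h1 := congrFun he (2 * Real.pi)
    have h2 : γ (2 * Real.pi) = γ 0 := by simp [γ]
    simp only [h2, hL0, id] at h1
    linarith [Real.pi_pos]

end Pool.Agent.H.MP_24ca2e_an
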